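import Pool.Agent.Lib.helper20.OntoL1

namespace Pool.Agent.Results.MP_c90ce4_lc.Embeds

open Pool.Agent.Lib.helper20.OntoL1

/-- The axioms of `S4.2` beyond `K`. -/
def S42 : Set (MF ℕ) :=
  {(MF.box (.var 0)).imp (.var 0), (MF.box (.var 0)).imp (.box (.box (.var 0))),
    (MF.dia (.box (.var 0))).imp (.box (MF.dia (.var 0)))}

theorem result (ι : ℕ → ℕ) (hι : Function.Injective ι) :
    ∃ χ : MF (Fin 2), ∀ φ : LF, L1 φ ↔ Normal S42 (trans ι χ φ) := by
  refine ⟨chi, faithful ?_ ι hι⟩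
  intro x hx V u
  rcases hx with rfl | rfl | rfl
  · simp only [MF.imp, Holds]
    by_contra h
    push Not at h
    exact h.2 (h.1 u (Or.inl rfl))
  · simp only [MF.imp, Holds]
    by_contra h
    push Not at h
    obtain ⟨h1, w, r, z, r', h2⟩ := h
    refine h2 (h1 z ?_)
    rcases r with rfl | rfl | rfl
    · exact r'
    · exact Or.inr (Or.inl rfl)
    · rcases r' with rfl | r' | rfl
      · exact Or.inr (Or.inr rfl)
      · cases r'
      · exact Or.inr (Or.inr rfl)
  · simp only [MF.imp, MF.dia, Holds]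
    by_contra h
    push Not at h
    obtain ⟨⟨w, -, h1⟩, z, -, h2⟩ := h
    exact h2 .top (Or.inr (Or.inr rfl)) (h1 .top (Or.inr (Or.inr rfl)))

end Pool.Agent.Results.MP_c90ce4_lc.Embeds
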